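import Pool.Agent.Work.MP_5bd7f1_co.KZ.Dis

/-! A counterexample has a set of triangles whose edges are covered by cycles of small total
excess: take the triangular faces and the long faces of a 4-critical subgraph. -/

set_option autoImplicit false
open Relation Pool.Agent.Pl

namespace Pool.Agent.KZ.LP

variable {V : Type} [Fintype V] {G H : SimpleGraph V}

theorem tm_of (D : Dual H) {g t : D.Fc} {u v : V} (kg : (D.star g).Adj u v)
    (kt : (D.star t).Adj u v) (h3 : len D t = 3) (n : g ≠ t) : (tm D g).Adj u v := by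
  refine ⟨kg.1, ?_⟩
  rcases kg.2 with p | p <;> rcases kt.2 with q | q
  · exact (n (p.symm.trans q)).elim
  · exact .inl ⟨p, q ▸ h3⟩
  · exact .inr ⟨p, q ▸ h3⟩
  · exact (n (p.symm.trans q)).elim

theorem cover (hP : PD G)
    (hd : ∀ s t : Finset V, G.IsNClique 3 s → G.IsNClique 3 t → s ≠ t → Disjoint s t)
    (h5 : ∀ (v : V) (p : G.Walk v v), p.IsCycle → p.length = 5 →
      ∀ s : Finset V, G.IsNClique 3 s → ∀ a ∈ s, ∀ b ∈ s, s(a, b) ∉ p.edges)
    (hn : ¬ Col G) :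
    ∃ (X : Finset (Finset V)) (Cs : Finset (Σ v : V, G.Walk v v)),
      (∀ s ∈ X, G.IsNClique 3 s) ∧
      (∀ C ∈ Cs, C.2.IsCycle ∧ 6 ≤ C.2.length) ∧
      (∀ s ∈ X, ∀ a ∈ s, ∀ b ∈ s, a ≠ b → ∃! C, C ∈ Cs ∧ s(a, b) ∈ C.2.edges) ∧
      (∀ s ∈ X, ∀ C ∈ Cs, ∀ a ∈ s, ∀ b ∈ s, ∀ c ∈ s,
        s(a, b) ∈ C.2.edges → s(a, c) ∈ C.2.edges → b = c) ∧
      ∑ C ∈ Cs, ((C.2.length : ℤ) - 5) ≤ 2 * (X.card : ℤ) - 8 := by
  classical
  obtain ⟨H, hH, h1, h2⟩ := exists_crit hn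
  obtain ⟨D⟩ := hP.mono hH
  have h0 : H ≠ ⊥ := fun e => h1 ⟨fun _ => 0, fun _ _ k => by rw [e] at k; exact k.elim⟩
  have two := h2.twoConn bot_le h0 (.inl rfl)
  have z := zeroed D h2 h0
  have nb : ∀ v, v ∉ (⊥ : SimpleGraph V).support := fun _ ⟨_, k⟩ => k
  have inj : ∀ g ∈ fs D, ∀ f, D.star g ≤ D.star f → g = f := by
    intro g hg f k
    by_contra n
    have e := two_same D two n hg k
    obtain ⟨a, b, ab⟩ := SimpleGraph.ne_bot_iff_exists_adj.1 h0
    obtain ⟨x, y, -, hw⟩ := (D.star_isCyc two f (e.symm ▸ h0)).2.1 a (e.symm ▸ ⟨b, ab⟩)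
    obtain ⟨u, u1, u2, u3⟩ := h2.third_nb ⟨b, ab⟩ (nb a) x y
    exact ((hw u).1 (e.symm ▸ u1)).elim u2 u3
  have uniq : ∀ t1 t2 x, len D t1 = 3 → len D t2 = 3 → x ∈ (D.star t1).support →
      x ∈ (D.star t2).support → t1 = t2 := by
    intro t1 t2 x p1 p2 x1 x2
    obtain ⟨s1, a1, b1, -⟩ := tri_face D two p1
    obtain ⟨s2, a2, b2, c2⟩ := tri_face D two p2
    have e : s1 = s2 := by
      by_contra n
      exact Finset.disjoint_left.1 (hd s1 s2 (a1.mono hH) (a2.mono hH) n) ((b1 x).2 x1)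
        ((b2 x).2 x2)
    subst e
    exact inj t1 (len_ne.1 (by omega)) t2 fun u v k =>
      c2 u ((b1 u).2 ⟨v, k⟩) v ((b1 v).2 ⟨u, k.symm⟩) k.ne
  have clq : ∀ g u v, (tm D g).Adj u v → ∃ s : Finset V, G.IsNClique 3 s ∧ u ∈ s ∧ v ∈ s := by
    intro g u v k
    obtain ⟨t, -, t2, t3, -⟩ := tm_spec D two k
    obtain ⟨s, a, b, -⟩ := tri_face D two t2
    exact ⟨s, a.mono hH, (b u).2 ⟨v, t3⟩, (b v).2 ⟨u, t3.symm⟩⟩
  have mt : ∀ g y x z, (tm D g).Adj y x → (tm D g).Adj y z → x = z := by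
    intro g y x z hx hz
    by_contra n
    obtain ⟨t1, -, p2, p3, p4⟩ := tm_spec D two hx
    obtain ⟨t2, -, q2, q3, q4⟩ := tm_spec D two hz
    obtain rfl := uniq t1 t2 y p2 q2 ⟨x, p3⟩ ⟨z, q3⟩
    obtain ⟨u, u1, u2, u3⟩ := h2.third_nb ⟨x, hx.1⟩ (nb y) x z
    exact deg_two D two hx.1 hz.1 u1 u2 u3 n (p4.trans q4.symm)
  have big : ∀ g ∈ fs D, ∀ u v, (tm D g).Adj u v → 6 ≤ len D g := by
    intro g hg u v k
    have cy := D.star_isCyc two g (mem_fs'.1 hg)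
    have t3 := three_le_len D two hg
    obtain ⟨v0, p, p1, p2, p3⟩ := cyc_walk cy ((D.star_le g).trans hH)
    rw [← len_eq D two] at p2
    have e3 : len D g ≠ 3 := fun e3 => by
      obtain ⟨t, t1, t2, t4, -⟩ := tm_spec D two k
      exact t1 (uniq t g u t2 e3 ⟨v, t4⟩ ⟨v, tm_le D g k⟩)
    have e4 : len D g ≠ 4 := fun e4 => by
      obtain ⟨F, hF, eF⟩ := cyc_param cy
      rw [← len_eq D two, e4] at hF
      obtain ⟨s, s1, s2, s3⟩ := clq g u v k
      have ad : ∀ i, G.Adj (F i) (F (i + 1)) := fun i => hH (hF.2.1 i).1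
      have key : ∀ i, F i ∈ s → F (i + 1) ∈ s → False := by
        intro i i1 i2
        obtain ⟨z, z1, z2⟩ : ∃ z ∈ s, z ∉ ({F i, F (i + 1)} : Finset V) := by
          refine Finset.exists_mem_notMem_of_card_lt_card ?_
          rw [s1.2]
          exact Nat.lt_succ_of_le Finset.card_le_two
        simp only [Finset.mem_insert, Finset.mem_singleton, not_or] at z2
        refine no_four hd h5 (ad i) (ad (i + 1)) (ad (i + 1 + 1)) ?_
          (CycA_inj hF (by omega) (by push_cast; omega)).symm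
          (CycA_inj hF (by omega) (by push_cast; omega)).symm
          (s1.1 i1 z1 (Ne.symm z2.1)) (s1.1 i2 z1 (Ne.symm z2.2))
        have := ad (i + 1 + 1 + 1)
        rwa [show F (i + 1 + 1 + 1 + 1) = F i from (hF.2.2 _ _).2 (by push_cast; omega)] at this
      have k' := tm_le D g k
      rw [← eF, CycA_adj hF] at k'
      obtain ⟨i, ⟨rfl, rfl⟩ | ⟨rfl, rfl⟩⟩ := k'
      exacts [key i s2 s3, key i s3 s2]
    have e5 : len D g ≠ 5 := fun e5 => by
      obtain ⟨s, s1, s2, s3⟩ := clq g u v k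
      refine h5 _ p p1 (p2.trans e5) s s1 u s2 v s3 ?_
      have : s(u, v) ∈ (D.star g).edgeSet := tm_le D g k
      rwa [p3] at this
    omega
  have hτ : ∀ t : D.Fc, ∃ s : Finset V, len D t = 3 → H.IsNClique 3 s ∧
      (∀ x, x ∈ s ↔ x ∈ (D.star t).support) ∧ ∀ u ∈ s, ∀ v ∈ s, u ≠ v → (D.star t).Adj u v := by
    intro t
    by_cases h3 : len D t = 3
    · exact (tri_face D two h3).imp fun s hs _ => hs
    · exact ⟨∅, fun k => (h3 k).elim⟩
  choose τ τs using hτ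
  have hκ : ∀ g : D.Fc, ∃ C : Σ v : V, G.Walk v v, g ∈ fs D → C.2.IsCycle ∧
      C.2.length = len D g ∧ ∀ a b, s(a, b) ∈ C.2.edges ↔ (D.star g).Adj a b := by
    intro g
    by_cases hg : g ∈ fs D
    · obtain ⟨v, p, p1, p2, p3⟩ := cyc_walk (D.star_isCyc two g (mem_fs'.1 hg))
        ((D.star_le g).trans hH)
      refine ⟨⟨v, p⟩, fun _ => ⟨p1, p2.trans (len_eq D two g).symm, fun a b => ?_⟩⟩
      rw [← SimpleGraph.mem_edgeSet, p3]
      rfl
    · obtain ⟨a, -, -⟩ := SimpleGraph.ne_bot_iff_exists_adj.1 h0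
      exact ⟨⟨a, .nil⟩, fun k => (hg k).elim⟩
  choose κ κs using hκ
  refine ⟨((fs D).filter fun g => len D g = 3).image τ,
    ((fs D).filter fun g => 6 ≤ len D g).image κ, fun s hs => ?_, fun C hC => ?_,
    fun s hs a ha b hb ab => ?_, fun s hs C hC a ha b hb c hc k1 k2 => ?_, ?_⟩
  · obtain ⟨t, ht, rfl⟩ := Finset.mem_image.1 hs
    exact (τs t (Finset.mem_filter.1 ht).2).1.mono hH
  · obtain ⟨g, hg, rfl⟩ := Finset.mem_image.1 hC
    obtain ⟨g1, g2⟩ := Finset.mem_filter.1 hg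
    exact ⟨(κs g g1).1, (κs g g1).2.1 ▸ g2⟩
  · obtain ⟨t, ht, rfl⟩ := Finset.mem_image.1 hs
    have h3 := (Finset.mem_filter.1 ht).2
    have kt := (τs t h3).2.2 a ha b hb ab
    have n := D.sides_ne two kt.1
    obtain ⟨g, kg, gt, go⟩ : ∃ g, (D.star g).Adj a b ∧ g ≠ t ∧
        ∀ f, (D.star f).Adj a b → f = t ∨ f = g := by
      rcases kt.2 with q | q
      · exact ⟨_, ⟨kt.1, .inr rfl⟩, q ▸ n.symm,
          fun f k => k.2.imp (fun p => p.symm.trans q) Eq.symm⟩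
      · exact ⟨_, ⟨kt.1, .inl rfl⟩, q ▸ n,
          fun f k => k.2.symm.imp (fun p => p.symm.trans q) Eq.symm⟩
    have hg : g ∈ fs D := mem_fs.2 ⟨a, b, kg⟩
    refine ⟨κ g, ⟨Finset.mem_image_of_mem _ (Finset.mem_filter.2
      ⟨hg, big g hg a b (tm_of D kg kt h3 gt)⟩), ((κs g hg).2.2 a b).2 kg⟩, ?_⟩
    rintro C ⟨hC, k⟩
    obtain ⟨f, hf, rfl⟩ := Finset.mem_image.1 hC
    obtain ⟨f1, f2⟩ := Finset.mem_filter.1 hf
    rcases go f (((κs f f1).2.2 a b).1 k) with rfl | rfl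
    · omega
    · rfl
  · obtain ⟨t, ht, rfl⟩ := Finset.mem_image.1 hs
    have h3 := (Finset.mem_filter.1 ht).2
    obtain ⟨g, hg, rfl⟩ := Finset.mem_image.1 hC
    obtain ⟨g1, g2⟩ := Finset.mem_filter.1 hg
    have q1 := ((κs g g1).2.2 a b).1 k1
    have q2 := ((κs g g1).2.2 a c).1 k2
    have gt : g ≠ t := by rintro rfl; omega
    exact mt g a b c (tm_of D q1 ((τs t h3).2.2 a ha b hb q1.ne) h3 gt)
      (tm_of D q2 ((τs t h3).2.2 a ha c hc q2.ne) h3 gt)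
  · rw [Finset.card_image_of_injOn, Finset.sum_image]
    · have e : ∀ g ∈ fs D, w (len D g) = (if 6 ≤ len D g then ((κ g).2.length : ℤ) - 5 else 0) -
          2 * if len D g = 3 then 1 else 0 := by
        intro g hg
        have := three_le_len D two hg
        rw [(κs g hg).2.1, w]
        split_ifs <;> omega
      unfold tot at z
      rw [Finset.sum_congr rfl e, Finset.sum_sub_distrib, ← Finset.mul_sum, Finset.sum_boole,
        ← Finset.sum_filter] at z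
      omega
    · intro g hg f hf e
      have g1 := (Finset.mem_filter.1 hg).1
      have f1 := (Finset.mem_filter.1 hf).1
      exact inj g g1 f fun a b k => ((κs f f1).2.2 a b).1 (e ▸ ((κs g g1).2.2 a b).2 k)
    · intro g hg f hf e
      have g3 := (Finset.mem_filter.1 hg).2
      have f3 := (Finset.mem_filter.1 hf).2
      obtain ⟨x, hx⟩ : (τ g).Nonempty := Finset.card_pos.1 (by rw [(τs g g3).1.2]; omega)
      exact uniq g f x g3 f3 (((τs g g3).2.1 x).1 hx) (((τs f f3).2.1 x).1 (e ▸ hx))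

end Pool.Agent.KZ.LP
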